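import Pool.Agent.H48.ER.Targets

/-!
# Row DEG of the board er_modules: the neighbours of a vertex of a prism in the prism
-/

set_option autoImplicit false

open Pool.Agent.H48.ER

namespace Pool.Agent.H72.ER

theorem deg_left {V : Type} {G : SimpleGraph V} {a b : Fin 3 → V} {n : Fin 3 → ℕ}
    {P : Fin 3 → Set V} (h : Prism G a b n P) (i : Fin 3) :
    ∃ r ∈ P i, r ≠ a i ∧ ∀ g ∈ ver P, G.Adj (a i) g ↔ g = r ∨ ∃ j, j ≠ i ∧ g = a j := by
  obtain ⟨g, g0, gn, gi, ga, hR⟩ := h.ip i
  have hn := h.pos i
  have hmem : ∀ l, l ≤ n i → g l ∈ P i := fun l hl => by rw [hR]; exact ⟨l, hl, rfl⟩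
  refine ⟨g 1, hmem 1 hn, ?_, ?_⟩
  · intro e
    have := gi 1 0 hn (Nat.zero_le _) (e.trans g0.symm)
    omega
  · rintro v ⟨j, hv⟩
    by_cases hij : i = j
    · subst hij
      constructor
      · intro hadj
        left
        rw [hR] at hv
        obtain ⟨l, hl, rfl⟩ := hv
        rw [← g0, ga 0 l (Nat.zero_le _) hl] at hadj
        have : l = 1 := by omega
        rw [this]
      · rintro (rfl | ⟨j', hj', rfl⟩)
        · rw [← g0, ga 0 1 (Nat.zero_le _) hn]
          omega
        · exact absurd (h.rung (h.a_mem j') hv) hj'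
    · rw [h.adj i j hij _ (h.a_mem i) _ hv]
      constructor
      · rintro (⟨_, h1⟩ | ⟨h1, _⟩)
        · exact Or.inr ⟨j, fun e => hij e.symm, h1⟩
        · exact absurd h1 (h.a_ne_b i i)
      · rintro (rfl | ⟨j', hj', rfl⟩)
        · exact absurd (h.rung (hmem 1 hn) hv) hij
        · have : j' = j := h.rung (h.a_mem j') hv
          subst this
          exact Or.inl ⟨rfl, rfl⟩

theorem pf_DEG : T_DEG := by
  intro V G a b n P h
  refine ⟨fun i => deg_left h i, fun i => deg_left h.flip i, ?_⟩
  intro i v hv hva hvb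
  obtain ⟨g, g0, gn, gi, ga, hR⟩ := h.ip i
  have hmem : ∀ l, l ≤ n i → g l ∈ P i := fun l hl => by rw [hR]; exact ⟨l, hl, rfl⟩
  have hv' := hv
  rw [hR] at hv
  obtain ⟨l, hl, rfl⟩ := hv
  have hl0 : l ≠ 0 := fun e => hva (by rw [e, g0])
  have hln : l ≠ n i := fun e => hvb (by rw [e, gn])
  refine ⟨g (l - 1), hmem _ (by omega), g (l + 1), hmem _ (by omega), ?_, ?_, ?_⟩
  · intro e
    have := gi _ _ (by omega) (by omega) e
    omega
  · rw [ga _ _ (by omega) (by omega)]
    omega
  · rintro w ⟨j, hw⟩
    by_cases hij : i = j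
    · subst hij
      rw [hR] at hw
      obtain ⟨l', hl', rfl⟩ := hw
      rw [ga _ _ (by omega) (by omega)]
      constructor
      · rintro (h1 | h1)
        · right
          rw [h1]
        · left
          congr 1
          omega
      · rintro (h1 | h1)
        · have := gi _ _ (by omega) (by omega) h1
          omega
        · have := gi _ _ (by omega) (by omega) h1
          omega
    · rw [h.adj i j hij _ hv' _ hw]
      constructor
      · rintro (⟨h1, _⟩ | ⟨h1, _⟩)
        · exact absurd h1 hva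
        · exact absurd h1 hvb
      · rintro (rfl | rfl)
        · exact absurd (h.rung (hmem (l - 1) (by omega)) hw) hij
        · exact absurd (h.rung (hmem (l + 1) (by omega)) hw) hij

end Pool.Agent.H72.ER
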