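import Pool.Agent.H48.ER.Targets

/-!
# Row DEL of the board er_modules: deletion of a vertex
-/

set_option autoImplicit false

open Pool.Agent.H48.ER

namespace Pool.Agent.H72.ER

theorem del_ne {V : Type} {G : SimpleGraph V} {v : V} {n : ℕ} {x y : V} {R : Set V}
    (h : IP (del G v) n x y R) (hn : 1 ≤ n) : ∀ w ∈ R, w ≠ v := by
  obtain ⟨g, g0, gn, gi, ga, hR⟩ := h
  intro w hw
  rw [hR] at hw
  obtain ⟨i, hi, rfl⟩ := hw
  by_cases h0 : i = n
  · have h1 : (del G v).Adj (g i) (g (i - 1)) := by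
      rw [ga _ _ hi (by omega)]
      omega
    exact h1.1
  · have h1 : (del G v).Adj (g i) (g (i + 1)) := by
      rw [ga _ _ hi (by omega)]
      omega
    exact h1.1

theorem del_adj_iff {V : Type} {G : SimpleGraph V} {v u w : V} (hu : u ≠ v) (hw : w ≠ v) :
    G.Adj u w ↔ (del G v).Adj u w := by
  constructor
  · intro h
    exact ⟨hu, hw, h⟩
  · intro h
    exact h.2.2

theorem pf_DEL : T_DEL := by
  intro V G v hG hP
  refine ⟨?_, ?_⟩
  · intro n u w c R hR hn hc hcu hcw hst
    have hne := del_ne hR (by omega)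
    have h1 : IP G n u w R := hR.congr fun a ha b hb => del_adj_iff (hne a ha) (hne b hb)
    refine hG n u w c R h1 hn hc hcu.2.2 hcw.2.2 ?_
    intro x hx hcx
    exact hst x hx ⟨hcu.1, hne x hx, hcx⟩
  · intro a b n P hPr
    have hne : ∀ x ∈ ver P, x ≠ v := by
      rintro x ⟨i, hi⟩
      exact del_ne (hPr.ip i) (hPr.pos i) x hi
    exact hP a b n P (hPr.congr fun x hx y hy => del_adj_iff (hne x hx) (hne y hy))

end Pool.Agent.H72.ER
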