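import Pool.Agent.H48.ER.Targets

/-!
# Row TSE of the board er_modules: two neighbours of a vertex with stable neighbourhood are an even
pair
-/

set_option autoImplicit false

open Pool.Agent.H48.ER

namespace Pool.Agent.H72.ER

theorem tse_seg {V : Type} {G : SimpleGraph V} (g : ℕ → V) (n : ℕ)
    (gi : ∀ i j, i ≤ n → j ≤ n → g i = g j → i = j)
    (ga : ∀ i j, i ≤ n → j ≤ n → (G.Adj (g i) (g j) ↔ i + 1 = j ∨ j + 1 = i)) (l m : ℕ)
    (hlm : l + m ≤ n) : IP G m (g l) (g (l + m)) {v | ∃ i, i ≤ m ∧ g (l + i) = v} := by
  refine ⟨fun i => g (l + i), by simp, rfl, ?_, ?_, rfl⟩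
  · intro i j hi hj e
    have := gi _ _ (by omega) (by omega) e
    omega
  · intro i j hi hj
    show G.Adj (g (l + i)) (g (l + j)) ↔ _
    rw [ga _ _ (by omega) (by omega)]
    omega

theorem pf_TSE (hFST : T_FST) : T_TSE := by
  classical
  intro V G c p q hG hst hp hq hpq
  refine ⟨hpq, hst p q hp hq, ?_⟩
  intro n R hR
  obtain ⟨g, g0, gn, gi, ga, hRe⟩ := hR
  have hn0 : n ≠ 0 := by
    intro h
    apply hpq
    rw [← g0, ← gn, h]
  by_cases hc : ∃ t, t ≤ n ∧ g t = c
  · obtain ⟨t, ht, rfl⟩ := hc
    have h1 : t = 1 := by
      rw [← g0, ga t 0 ht (Nat.zero_le _)] at hp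
      omega
    rw [← gn, ga t n ht le_rfl] at hq
    have h2 : n = 2 := by omega
    rw [h2]
    exact even_two
  · have key : ∀ m l, l + m = n → G.Adj c (g l) → Even m := by
      intro m
      induction m using Nat.strong_induction_on with
      | _ m ih =>
        intro l hl hcl
        by_cases hm : m = 0
        · rw [hm]
          exact Even.zero
        · have hex : ∃ t, 1 ≤ t ∧ t ≤ m ∧ G.Adj c (g (l + t)) :=
            ⟨m, by omega, le_rfl, by rw [hl, gn]; exact hq⟩
          have hspec := Nat.find_spec hex
          have hmin := fun t (h : t < Nat.find hex) => Nat.find_min hex h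
          set t := Nat.find hex with ht
          obtain ⟨ht1, htm, hct⟩ := hspec
          have ht2 : 2 ≤ t := by
            by_contra hlt
            have : t = 1 := by omega
            rw [this] at hct
            apply hst _ _ hcl hct
            rw [ga _ _ (by omega) (by omega)]
            omega
          have hseg := tse_seg g n gi ga l t (by omega)
          have he : Even t := by
            refine hG t (g l) (g (l + t)) c _ hseg ht2 ?_ hcl hct ?_
            · rintro ⟨i, hi, hic⟩
              exact hc ⟨l + i, by omega, hic⟩
            · rintro w ⟨i, hi, rfl⟩ hcw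
              by_cases hi0 : i = 0
              · left
                rw [hi0, Nat.add_zero]
              · right
                by_cases hit : i = t
                · rw [hit]
                · exact absurd ⟨by omega, by omega, hcw⟩ (hmin i (by omega))
          have h3 := ih (m - t) (by omega) (l + t) (by omega) hct
          have h4 : m = t + (m - t) := by omega
          rw [h4]
          exact he.add h3
    exact key n 0 (by omega) (by rw [g0]; exact hp)

end Pool.Agent.H72.ER
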